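import Pool.Agent.W_7742_h74.Stmt

/-! Definitions for the statement: finite families of Hecke eigensystems of cusp forms on `GL_2`,
traces of the Hecke ring, Selberg orthogonality for the adjoint square and the fourth symmetric power,
icosahedral type. -/

noncomputable section

namespace Pool.Agent.H74G

open Filter Topology ComplexConjugate
open Pool.Agent.H74C (HasMean onClass HasDensity)

/-- A finite family of distinct Hecke eigensystems, with positive multiplicities: complex numbers
`a i p` for the primes `p` not dividing the level (the eigenvalues of the Hecke operators `T_p`) and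
Dirichlet characters `ω i` modulo the level (the central characters), such that the complex conjugate
of `a i p` is `a i p / ω i p`. -/
structure HeckeFamily (I : Type) [Fintype I] where
  /-- the level -/
  level : ℕ
  level_pos : 0 < level
  /-- the multiplicities -/
  mult : I → ℕ
  mult_pos : ∀ i, 0 < mult i
  /-- the central characters -/
  ω : I → DirichletCharacter ℂ level
  /-- the Hecke eigenvalues -/
  a : I → ℕ → ℂ
  central : ∀ i p, p.Prime → ¬ p ∣ level → conj (a i p) * ω i p = a i p
  distinct : ∀ i j, (∀ p, p.Prime → ¬ p ∣ level → a i p = a j p ∧ ω i p = ω j p) → i = j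

namespace HeckeFamily

variable {I : Type} [Fintype I] (V : HeckeFamily I)

/-- The prime `p` does not divide the level. -/
def Good (p : ℕ) : Prop := p.Prime ∧ ¬ p ∣ V.level

/-- The value at the eigensystem `i` of a polynomial with integral coefficients in the Hecke operators
`T_p` (first set of variables) and the diamond operators `⟨p⟩` (second set of variables). -/
def value (i : I) : MvPolynomial ({p : ℕ // V.Good p} ⊕ {p : ℕ // V.Good p}) ℤ →+* ℂ :=
  MvPolynomial.eval₂Hom (Int.castRingHom ℂ) (Sum.elim (fun p => V.a i p) (fun p => V.ω i (p : ℕ)))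

/-- The traces of all elements of the Hecke ring are rational with bounded denominators. -/
def RationalTraces : Prop :=
  ∃ D : ℕ, 0 < D ∧ ∀ P : MvPolynomial ({p : ℕ // V.Good p} ⊕ {p : ℕ // V.Good p}) ℤ,
    ∃ z : ℤ, (D : ℂ) * ∑ i, (V.mult i : ℂ) * V.value i P = z

/-- The square of the absolute value of the Hecke eigenvalue. -/
def u (i : I) (p : ℕ) : ℝ := ‖V.a i p‖ ^ 2

/-- The traces `|a p|^2 - 1` of the adjoint square. -/
def ad (i : I) (p : ℕ) : ℝ := V.u i p - 1

/-- The traces `|a p|^4 - 3 |a p|^2 + 1` of the fourth symmetric power, twisted by the inverse of the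
square of the central character. -/
def four (i : I) (p : ℕ) : ℝ := V.u i p ^ 2 - 3 * V.u i p + 1

/-- `f` and `g` agree at the primes which do not divide the level. -/
def Same (f g : ℕ → ℝ) : Prop := ∀ p, V.Good p → f p = g p

/-- Selberg orthogonality for the adjoint squares and the fourth symmetric powers of the eigensystems
`i` and `j`. -/
structure Orthogonal (i j : I) : Prop where
  mean_ad : ∀ M : ℕ, 0 < M → HasMean (onClass M (V.ad i)) 0
  mean_four : ∀ M : ℕ, 0 < M → HasMean (onClass M (V.four i)) 0
  mean_ad_four : ∀ M : ℕ, 0 < M → HasMean (onClass M (V.ad i * V.four j)) 0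
  ad_ad_same : V.Same (V.ad i) (V.ad j) → HasMean (V.ad i * V.ad j) 1
  ad_ad_ne : ¬ V.Same (V.ad i) (V.ad j) → HasMean (V.ad i * V.ad j) 0
  four_four_same : V.Same (V.four i) (V.four j) → HasMean (V.four i * V.four j) 1
  four_four_ne : ¬ V.Same (V.four i) (V.four j) → HasMean (V.four i * V.four j) 0

/-- Multiplicity one for `SL_2`: two eigensystems with the same adjoint square differ by a twist by a
Dirichlet character. -/
def MultiplicityOne : Prop :=
  ∀ i j : I, V.Same (V.ad i) (V.ad j) → ∃ M : ℕ, 0 < M ∧ ∃ χ : DirichletCharacter ℂ M,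
    ∀ p, V.Good p → ¬ p ∣ M → V.a i p = χ p * V.a j p

/-- `f` vanishes at the primes with `χ p ≠ 1`, for a Dirichlet character `χ ≠ 1` (if the `f p` are the
traces of a representation, this means that it is isomorphic to its twist by `χ`). -/
def SelfTwist (f : ℕ → ℂ) : Prop :=
  ∃ M : ℕ, 0 < M ∧ ∃ χ : DirichletCharacter ℂ M, χ ≠ 1 ∧
    ∀ p, V.Good p → ¬ p ∣ M → χ p ≠ 1 → f p = 0

/-- The eigensystem is isomorphic to a twist of itself. -/
def Dihedral (i : I) : Prop := V.SelfTwist (V.a i)

/-- The adjoint square is isomorphic to a twist of itself. -/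
def Tetrahedral (i : I) : Prop := V.SelfTwist fun p => V.a i p ^ 2 - V.ω i p

/-- The symmetric cube is isomorphic to a twist of itself. -/
def Octahedral (i : I) : Prop := V.SelfTwist fun p => V.a i p ^ 3 - 2 * V.ω i p * V.a i p

/-- The eigensystem is dihedral, tetrahedral or octahedral. -/
def Solvable (i : I) : Prop := V.Dihedral i ∨ V.Tetrahedral i ∨ V.Octahedral i

/-- The theorems of Gelbart, Jacquet, Kim and Shahidi (the adjoint square and the fourth symmetric
power are cuspidal automorphic representations of `GL_3` and `GL_5` if the eigensystem is not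
dihedral, tetrahedral or octahedral) and the Rankin-Selberg theory (Selberg orthogonality for these
representations). -/
def KimShahidi : Prop := ∀ i j, ¬ V.Solvable i → ¬ V.Solvable j → V.Orthogonal i j

/-- The eigensystem `i` is of icosahedral type: there is a conjugate eigensystem `j` such that at each
prime `p` which does not divide the level, `|a i p|^2` and `|a j p|^2` are the same rational integer
or they are `(3 + √5) / 2` and `(3 - √5) / 2`, in some order; and the primes with `|a i p|^2 = 0`,
`1`, `4`, `(3 + √5) / 2` and `(3 - √5) / 2` have the densities `1/4`, `1/3`, `1/60`, `1/5` and `1/5`. -/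
structure Icosahedral (i : I) : Prop where
  values : ∃ j, ∀ p, V.Good p → (∃ n : ℕ, V.u i p = n ∧ V.u j p = n) ∨
    (V.u i p = (3 + √5) / 2 ∧ V.u j p = (3 - √5) / 2) ∨
    (V.u i p = (3 - √5) / 2 ∧ V.u j p = (3 + √5) / 2)
  zero : HasDensity (fun p => V.u i p = 0) (1 / 4)
  one : HasDensity (fun p => V.u i p = 1) (1 / 3)
  four' : HasDensity (fun p => V.u i p = 4) (1 / 60)
  golden : HasDensity (fun p => V.u i p = (3 + √5) / 2) (1 / 5)
  golden' : HasDensity (fun p => V.u i p = (3 - √5) / 2) (1 / 5)

end HeckeFamily

end Pool.Agent.H74G
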