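import Pool.Agent.W_7742f_h74.Fam
import Pool.Agent.W_7742f_h74.Stmt
import Pool.Agent.W_7742_h74.Final

set_option autoImplicit false

noncomputable section

namespace Pool.Agent.H74G

open Filter Topology ComplexConjugate
open Pool.Agent.H74C (HasMean onClass HasDensity TraceSystem)

namespace HeckeFamily

variable {I : Type} [Fintype I] {V : HeckeFamily I}

lemma value_X (i : I) (p : {p : ℕ // V.Good p}) :
    V.value i (MvPolynomial.X (Sum.inl p)) = V.a i p := by
  unfold value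
  simp

lemma value_Y (i : I) (p : {p : ℕ // V.Good p}) :
    V.value i (MvPolynomial.X (Sum.inr p)) = V.ω i (p : ℕ) := by
  unfold value
  simp

lemma value_injective : Function.Injective V.value := by
  intro i j hij
  apply V.distinct
  intro p hp hd
  have h1 := DFunLike.congr_fun hij (MvPolynomial.X (Sum.inl ⟨p, hp, hd⟩))
  have h2 := DFunLike.congr_fun hij (MvPolynomial.X (Sum.inr ⟨p, hp, hd⟩))
  rw [value_X, value_X] at h1
  rw [value_Y, value_Y] at h2
  exact ⟨h1, h2⟩

/-- Each residue class contains a good prime. -/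
lemma exists_good (c : (ZMod V.level)ˣ) : ∃ p : ℕ, V.Good p ∧ (p : ZMod V.level) = c := by
  have : NeZero V.level := ⟨V.level_pos.ne'⟩
  obtain ⟨p, -, hp, hc⟩ := Nat.forall_exists_prime_gt_and_eq_mod (q := V.level) c.isUnit 0
  refine ⟨p, ⟨hp, fun hd => ?_⟩, hc⟩
  have h1 : IsUnit (p : ZMod V.level) := by
    rw [hc]
    exact c.isUnit
  rw [ZMod.isUnit_iff_coprime] at h1
  have h2 := Nat.eq_one_of_dvd_coprimes h1 dvd_rfl hd
  exact hp.one_lt.ne' h2

section field

variable {F : IntermediateField ℚ ℂ} (hF : ∀ i Q, V.value i Q ∈ F)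

include hF in
lemma a_mem (i : I) {p : ℕ} (hp : V.Good p) : V.a i p ∈ F := by
  rw [← value_X i ⟨p, hp⟩]
  exact hF i _

include hF in
lemma ω_mem (i : I) (c : (ZMod V.level)ˣ) : V.ω i c ∈ F := by
  obtain ⟨p, hp, hc⟩ := exists_good c
  rw [← hc, ← value_Y i ⟨p, hp⟩]
  exact hF i _

/-- The central character with values in the field. -/
def omF (i : I) : DirichletCharacter F V.level :=
  MulChar.ofUnitHom (MonoidHom.toHomUnits
    { toFun := fun c : (ZMod V.level)ˣ => (⟨V.ω i c, ω_mem hF i c⟩ : F)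
      map_one' := by
        apply Subtype.ext
        simp
      map_mul' := fun x y => by
        apply Subtype.ext
        simp })

lemma omF_coe (i : I) {p : ℕ} (hp : V.Good p) : ((omF hF i (p : ZMod V.level) : F) : ℂ) = V.ω i p := by
  have hu : IsUnit (p : ZMod V.level) := by
    have : NeZero V.level := ⟨V.level_pos.ne'⟩
    rw [ZMod.isUnit_iff_coprime]
    exact (Nat.Prime.coprime_iff_not_dvd hp.1).2 hp.2
  obtain ⟨c, hc⟩ := hu
  rw [← hc, omF, MulChar.ofUnitHom_coe]
  rfl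

variable (hint : ∀ i Q, IsIntegral ℤ (V.value i Q))
variable [FiniteDimensional ℚ F]

instance : NumberField F where
  to_charZero := inferInstance
  to_finiteDimensional := inferInstance

variable (hconj : ∀ (σ : F →+* ℂ) (i : I), ∃ j, ∀ Q, σ ⟨V.value i Q, hF i Q⟩ = V.value j Q)

open Classical in
/-- The eigenvalues in the field. -/
def aF (i : I) (p : ℕ) : F := if hp : V.Good p then ⟨V.a i p, a_mem hF i hp⟩ else 0

omit [FiniteDimensional ℚ F] in
lemma aF_coe (i : I) {p : ℕ} (hp : V.Good p) : ((aF hF i p : F) : ℂ) = V.a i p := by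
  unfold aF
  rw [dif_pos hp]

omit [FiniteDimensional ℚ F] in
lemma σ_aF {σ : F →+* ℂ} {i j : I} (h : ∀ Q, σ ⟨V.value i Q, hF i Q⟩ = V.value j Q) {p : ℕ}
    (hp : V.Good p) : σ (aF hF i p) = V.a j p := by
  rw [← value_X j ⟨p, hp⟩, ← h]
  congr 1
  apply Subtype.ext
  rw [aF_coe hF i hp]
  exact (value_X i ⟨p, hp⟩).symm

omit [FiniteDimensional ℚ F] in
lemma σ_omF {σ : F →+* ℂ} {i j : I} (h : ∀ Q, σ ⟨V.value i Q, hF i Q⟩ = V.value j Q) {p : ℕ}
    (hp : V.Good p) : σ (omF hF i (p : ZMod V.level)) = V.ω j p := by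
  rw [← value_Y j ⟨p, hp⟩, ← h]
  congr 1
  apply Subtype.ext
  rw [omF_coe hF i hp]
  exact (value_Y i ⟨p, hp⟩).symm

/-- The system of Hecke traces. -/
def sys (i : I) : TraceSystem F where
  level := V.level
  level_pos := V.level_pos
  ω := omF hF i
  a := aF hF i
  integral := by
    intro p hp hd
    have h1 : IsIntegral ℤ (((aF hF i p : F)) : ℂ) := by
      rw [aF_coe hF i ⟨hp, hd⟩, ← value_X i ⟨p, hp, hd⟩]
      exact hint i _
    exact (isIntegral_algHom_iff (F.val.toRingHom.toIntAlgHom) F.val.injective).1 h1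
  central := by
    intro p hp hd σ
    obtain ⟨j, hj⟩ := hconj σ i
    rw [σ_aF hF hj ⟨hp, hd⟩, σ_omF hF hj ⟨hp, hd⟩]
    exact V.central j p hp hd

lemma sys_good (i : I) {p : ℕ} : (sys hF hint hconj i).Good p ↔ V.Good p := Iff.rfl

lemma sys_u {i j : I} {σ : F →+* ℂ} (h : ∀ Q, σ ⟨V.value i Q, hF i Q⟩ = V.value j Q) {p : ℕ}
    (hp : V.Good p) : (sys hF hint hconj i).u σ p = V.u j p := by
  unfold TraceSystem.u u
  rw [← σ_aF hF h hp]
  rfl

lemma sys_ad {i j : I} {σ : F →+* ℂ} (h : ∀ Q, σ ⟨V.value i Q, hF i Q⟩ = V.value j Q) {p : ℕ}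
    (hp : V.Good p) : (sys hF hint hconj i).ad σ p = V.ad j p := by
  unfold TraceSystem.ad ad
  rw [sys_u hF hint hconj h hp]

lemma sys_four {i j : I} {σ : F →+* ℂ} (h : ∀ Q, σ ⟨V.value i Q, hF i Q⟩ = V.value j Q) {p : ℕ}
    (hp : V.Good p) : (sys hF hint hconj i).four σ p = V.four j p := by
  unfold TraceSystem.four four
  rw [sys_u hF hint hconj h hp]

lemma good_of (V : HeckeFamily I) : ∃ S : Finset ℕ, ∀ p, p.Prime → p ∉ S → V.Good p := by
  refine ⟨V.level.primeFactors, fun p hp hpS => ⟨hp, fun hd => hpS ?_⟩⟩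
  exact Nat.mem_primeFactors.2 ⟨hp, hd, V.level_pos.ne'⟩

lemma mean_of {f g : ℕ → ℝ} {c : ℝ} (h : HasMean f c) (hfg : ∀ p, V.Good p → f p = g p) :
    HasMean g c := by
  obtain ⟨S, hS⟩ := good_of V
  exact h.congr S fun p hp hpS => hfg p (hS p hp hpS)

lemma onClass_congr {M : ℕ} {f g : ℕ → ℝ} {p : ℕ} (h : f p = g p) : onClass M f p = onClass M g p := by
  unfold H74C.onClass
  rw [h]

end field

end HeckeFamily

end Pool.Agent.H74G
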