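import Mathlib

set_option autoImplicit false

noncomputable section

namespace Pool.Agent.H74G

/-! Finite families of homomorphisms of a commutative ring to the complex numbers with rational traces
of bounded denominators: the values are algebraic integers of a number field and the family is stable
under conjugation. -/

variable {R : Type} [CommRing R] {I : Type} [Fintype I]

/-- The coordinate functions are in the span. -/
lemma exists_coord (χ : I → R →+* ℂ) (hχ : Function.Injective χ) [DecidableEq I] (i : I) :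
    (Pi.single i 1 : I → ℂ) ∈ Submodule.span ℂ (Set.range fun P : R => fun k => χ k P) := by
  by_contra hcon
  have hlt : Submodule.span ℂ (Set.range fun P : R => fun k => χ k P) < ⊤ := by
    rw [lt_top_iff_ne_top]
    intro h
    exact hcon (by rw [h]; trivial)
  obtain ⟨f, hf, hker⟩ := Submodule.exists_le_ker_of_lt_top _ hlt
  have hrel : ∀ P : R, ∑ k, f (Pi.single k 1) * χ k P = 0 := by
    intro P
    have h1 : f (fun k => χ k P) = 0 := by
      have : (fun k => χ k P) ∈ Submodule.span ℂ (Set.range fun P : R => fun k => χ k P) :=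
        Submodule.subset_span ⟨P, rfl⟩
      exact hker this
    have h2 : (fun k => χ k P) = ∑ k, χ k P • (Pi.single k 1 : I → ℂ) := by
      funext j
      rw [Finset.sum_apply]
      simp [Pi.single_apply]
    rw [h2, map_sum] at h1
    rw [← h1]
    refine Finset.sum_congr rfl fun k _ => ?_
    rw [map_smul, smul_eq_mul, mul_comm]
  have hli := (linearIndependent_monoidHom R ℂ).comp (fun k => (χ k : R →* ℂ))
    (fun a b hab => hχ (RingHom.ext fun x => by
      have := DFunLike.congr_fun hab x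
      simpa using this))
  have hz := (Fintype.linearIndependent_iff.1 hli) (fun k => f (Pi.single k 1)) (by
    funext P
    rw [Finset.sum_apply]
    simpa using hrel P)
  apply hf
  apply LinearMap.pi_ext
  intro k x
  have h3 : (Pi.single k x : I → ℂ) = x • (Pi.single k 1 : I → ℂ) := by
    rw [← Pi.single_smul, smul_eq_mul, mul_one]
  rw [h3, map_smul, hz k]
  simp

/-- The values lie in a finitely generated group. -/
lemma exists_fg (χ : I → R →+* ℂ) (hχ : Function.Injective χ) (m : I → ℕ) (hm : ∀ i, 0 < m i)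
    (D : ℕ) (hD : 0 < D) (h : ∀ P : R, ∃ z : ℤ, (D : ℂ) * ∑ i, (m i : ℂ) * χ i P = z) (i : I) :
    ∃ W : Submodule ℤ ℂ, W.FG ∧ ∀ Q : R, χ i Q ∈ W := by
  classical
  have hc := exists_coord χ hχ i
  rw [Finsupp.mem_span_range_iff_exists_finsupp] at hc
  obtain ⟨c, hc⟩ := hc
  have hDm : (D : ℂ) * (m i : ℂ) ≠ 0 := by
    have h1 : (D : ℂ) ≠ 0 := by exact_mod_cast hD.ne'
    have h2 : (m i : ℂ) ≠ 0 := by exact_mod_cast (hm i).ne'
    exact mul_ne_zero h1 h2
  refine ⟨Submodule.span ℤ ((c.support.image fun P => c P / ((D : ℂ) * (m i : ℂ)) : Finset ℂ) : Set ℂ),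
    ⟨_, rfl⟩, fun Q => ?_⟩
  have hk : ∀ k : I, c.sum (fun P a => a * χ k P) = if k = i then 1 else 0 := by
    intro k
    have h1 := congrFun hc k
    rw [Finsupp.sum_apply'] at h1
    simp only [Pi.smul_apply, smul_eq_mul, Pi.single_apply] at h1
    exact h1
  have key : (D : ℂ) * (m i : ℂ) * χ i Q =
      c.sum (fun P a => a * ((D : ℂ) * ∑ k, (m k : ℂ) * χ k (P * Q))) := by
    have h1 : c.sum (fun P a => a * ((D : ℂ) * ∑ k, (m k : ℂ) * χ k (P * Q))) =
        ∑ k, (D : ℂ) * (m k : ℂ) * χ k Q * c.sum (fun P a => a * χ k P) := by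
      simp only [Finsupp.sum, Finset.mul_sum, map_mul]
      rw [Finset.sum_comm]
      refine Finset.sum_congr rfl fun k _ => Finset.sum_congr rfl fun P _ => ?_
      ring
    rw [h1]
    simp only [hk]
    simp
  choose z hz using h
  have key2 : χ i Q = c.sum (fun P a => (z (P * Q)) • (a / ((D : ℂ) * (m i : ℂ)))) := by
    have h1 : χ i Q = ((D : ℂ) * (m i : ℂ) * χ i Q) / ((D : ℂ) * (m i : ℂ)) :=
      (mul_div_cancel_left₀ _ hDm).symm
    rw [h1, key]
    simp only [hz, Finsupp.sum, Finset.sum_div, zsmul_eq_mul]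
    refine Finset.sum_congr rfl fun P _ => ?_
    ring
  rw [key2, Finsupp.sum]
  refine Submodule.sum_mem _ fun P hP => Submodule.smul_mem _ _ (Submodule.subset_span ?_)
  simp only [Finset.coe_image, Set.mem_image, Finset.mem_coe]
  exact ⟨P, hP, rfl⟩

/-- The number field generated by the values. -/
theorem exists_field (χ : I → R →+* ℂ) (hχ : Function.Injective χ) (m : I → ℕ) (hm : ∀ i, 0 < m i)
    (D : ℕ) (hD : 0 < D) (h : ∀ P : R, ∃ z : ℤ, (D : ℂ) * ∑ i, (m i : ℂ) * χ i P = z) :
    (∀ i Q, IsIntegral ℤ (χ i Q)) ∧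
      ∃ F : IntermediateField ℚ ℂ, FiniteDimensional ℚ F ∧ ∀ i Q, χ i Q ∈ F := by
  classical
  have hW := fun i => exists_fg χ hχ m hm D hD h i
  choose W hfg hmem using hW
  have hS : ∀ i, (Subalgebra.toSubmodule (χ i).toIntAlgHom.range).FG := by
    intro i
    have hle : Subalgebra.toSubmodule (χ i).toIntAlgHom.range ≤ W i := by
      intro x hx
      obtain ⟨Q, rfl⟩ := hx
      exact hmem i Q
    have hN : IsNoetherian ℤ (W i) := isNoetherian_of_fg_of_noetherian _ (hfg i)
    exact Submodule.FG.of_le (hfg i) hle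
  have hint : ∀ i Q, IsIntegral ℤ (χ i Q) := fun i Q =>
    IsIntegral.of_mem_of_fg (χ i).toIntAlgHom.range (hS i) _ ⟨Q, rfl⟩
  refine ⟨hint, ?_⟩
  choose T hT using fun i => (hS i)
  set U : Finset ℂ := Finset.univ.biUnion T with hU
  have hUint : ∀ x ∈ (U : Set ℂ), IsIntegral ℚ x := by
    intro x hx
    rw [hU, Finset.mem_coe, Finset.mem_biUnion] at hx
    obtain ⟨i, -, hi⟩ := hx
    have h1 : x ∈ Subalgebra.toSubmodule (χ i).toIntAlgHom.range := by
      rw [← hT i]
      exact Submodule.subset_span hi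
    obtain ⟨Q, rfl⟩ := h1
    exact (hint i Q).tower_top
  refine ⟨IntermediateField.adjoin ℚ (U : Set ℂ), ?_, ?_⟩
  · have : Finite (U : Set ℂ) := Finset.finite_toSet U
    exact IntermediateField.finiteDimensional_adjoin hUint
  · intro i Q
    have h1 : χ i Q ∈ Submodule.span ℤ (T i : Set ℂ) := by
      rw [hT i]
      exact ⟨Q, rfl⟩
    have h2 : Submodule.span ℤ (T i : Set ℂ) ≤
        (Subalgebra.toSubmodule
          ((IntermediateField.adjoin ℚ (U : Set ℂ)).toSubalgebra.restrictScalars ℤ)) := by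
      rw [Submodule.span_le]
      intro x hx
      change x ∈ IntermediateField.adjoin ℚ (U : Set ℂ)
      apply IntermediateField.subset_adjoin
      rw [hU, Finset.coe_biUnion]
      simp only [Finset.coe_univ, Set.mem_univ, Set.iUnion_true, Set.mem_iUnion]
      exact ⟨i, hx⟩
    exact h2 h1

/-- The family is stable under conjugation. -/
theorem exists_conj (χ : I → R →+* ℂ) (hχ : Function.Injective χ) (m : I → ℕ) (hm : ∀ i, 0 < m i)
    (D : ℕ) (hD : 0 < D) (h : ∀ P : R, ∃ z : ℤ, (D : ℂ) * ∑ i, (m i : ℂ) * χ i P = z)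
    (F : IntermediateField ℚ ℂ) (hF : ∀ i Q, χ i Q ∈ F) (σ : F →+* ℂ) (i : I) :
    ∃ j, ∀ Q, σ ⟨χ i Q, hF i Q⟩ = χ j Q := by
  classical
  -- the conjugate homomorphisms
  set ψ : I → R →+* ℂ := fun k => σ.comp ((χ k).codRestrict F.toSubfield.toSubring (hF k)) with hψ
  have hψ' : ∀ k Q, ψ k Q = σ ⟨χ k Q, hF k Q⟩ := fun k Q => rfl
  have hψinj : Function.Injective ψ := by
    intro a b hab
    apply hχ
    apply RingHom.ext
    intro Q
    have h1 := DFunLike.congr_fun hab Q
    rw [hψ', hψ'] at h1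
    exact congrArg Subtype.val (σ.injective h1)
  by_contra hcon
  push Not at hcon
  have hne : ∀ j, ψ i ≠ χ j := by
    intro j hj
    obtain ⟨Q, hQ⟩ := hcon j
    apply hQ
    rw [← hψ', hj]
  -- the relation
  have hrel : ∀ Q, ∑ k, (m k : ℂ) * χ k Q = ∑ k, (m k : ℂ) * ψ k Q := by
    intro Q
    obtain ⟨z, hz⟩ := h Q
    have hD0 : (D : ℂ) ≠ 0 := by exact_mod_cast hD.ne'
    have e1 : ∑ k, (m k : ℂ) * χ k Q = (z : ℂ) / D := by
      rw [← hz]
      field_simp
    have e2 : ((D : F) * ∑ k, (m k : F) * ⟨χ k Q, hF k Q⟩ : F) = (z : F) := by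
      apply Subtype.ext
      push_cast
      exact hz
    have e3 := congrArg σ e2
    rw [map_mul, map_sum, map_natCast, map_intCast] at e3
    rw [e1, ← e3]
    have e4 : ∀ k, σ ((m k : F) * ⟨χ k Q, hF k Q⟩) = (m k : ℂ) * ψ k Q := by
      intro k
      rw [map_mul, map_natCast, hψ']
    simp only [e4]
    field_simp
  -- linear independence
  have hli := linearIndependent_iff'.1 (linearIndependent_monoidHom R ℂ)
  set S : Finset (R →* ℂ) := (Finset.univ.image fun k => (χ k : R →* ℂ)) ∪
    (Finset.univ.image fun k => (ψ k : R →* ℂ)) with hS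
  have hcoe : ∀ (f g : R →+* ℂ), (f : R →* ℂ) = (g : R →* ℂ) → f = g := by
    intro f g hfg
    apply RingHom.ext
    intro x
    have := DFunLike.congr_fun hfg x
    simpa using this
  set c : (R →* ℂ) → ℂ := fun f =>
    (∑ k, if (χ k : R →* ℂ) = f then (m k : ℂ) else 0) -
      (∑ k, if (ψ k : R →* ℂ) = f then (m k : ℂ) else 0) with hc
  have hsum : ∑ f ∈ S, c f • (fun x => f x : R → ℂ) = 0 := by
    funext Q
    rw [Finset.sum_apply]
    simp only [Pi.smul_apply, smul_eq_mul, hc, sub_mul, Finset.sum_sub_distrib, Finset.sum_mul,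
      ite_mul, zero_mul, Pi.zero_apply]
    have e1 : ∑ f ∈ S, ∑ k, (if (χ k : R →* ℂ) = f then (m k : ℂ) * f Q else 0) =
        ∑ k, (m k : ℂ) * χ k Q := by
      rw [Finset.sum_comm]
      refine Finset.sum_congr rfl fun k _ => ?_
      rw [Finset.sum_ite_eq S (χ k : R →* ℂ) (fun f => (m k : ℂ) * f Q), if_pos]
      · rfl
      · rw [hS, Finset.mem_union]
        exact Or.inl (Finset.mem_image_of_mem _ (Finset.mem_univ _))
    have e2 : ∑ f ∈ S, ∑ k, (if (ψ k : R →* ℂ) = f then (m k : ℂ) * f Q else 0) =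
        ∑ k, (m k : ℂ) * ψ k Q := by
      rw [Finset.sum_comm]
      refine Finset.sum_congr rfl fun k _ => ?_
      rw [Finset.sum_ite_eq S (ψ k : R →* ℂ) (fun f => (m k : ℂ) * f Q), if_pos]
      · rfl
      · rw [hS, Finset.mem_union]
        exact Or.inr (Finset.mem_image_of_mem _ (Finset.mem_univ _))
    rw [e1, e2, hrel Q, sub_self]
  have hz := hli S c hsum (ψ i : R →* ℂ) (by
    rw [hS, Finset.mem_union]
    exact Or.inr (Finset.mem_image_of_mem _ (Finset.mem_univ _)))
  have e1 : (∑ k, if (χ k : R →* ℂ) = (ψ i : R →* ℂ) then (m k : ℂ) else 0) = 0 := by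
    apply Finset.sum_eq_zero
    intro k _
    rw [if_neg]
    intro h1
    exact hne k (hcoe _ _ h1).symm
  have e2 : (∑ k, if (ψ k : R →* ℂ) = (ψ i : R →* ℂ) then (m k : ℂ) else 0) = m i := by
    rw [Finset.sum_eq_single i]
    · simp
    · intro k _ hk
      rw [if_neg]
      intro h1
      exact hk (hψinj (hcoe _ _ h1))
    · simp
  rw [hc] at hz
  simp only at hz
  rw [e1, e2, zero_sub, neg_eq_zero] at hz
  have : m i = 0 := by exact_mod_cast hz
  exact absurd this (hm i).ne'

end Pool.Agent.H74G
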