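import Pool.Agent.W_7742f_h74.Bridge

set_option autoImplicit false

noncomputable section

namespace Pool.Agent.H74G

open Filter Topology ComplexConjugate
open Pool.Agent.H74C (HasMean onClass HasDensity TraceSystem)

section partner

variable {K : Type} [Field K] [NumberField K]

/-- A square root of five has two different conjugates. -/
lemma exists_partner {z : K} (hz : z ^ 2 = 5) (σ : K →+* ℂ) : ∃ τ : K →+* ℂ, τ z = -σ z := by
  by_contra hcon
  push Not at hcon
  have hall : ∀ τ : K →+* ℂ, τ z = σ z := by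
    intro τ
    have h1 : (τ z) ^ 2 = (σ z) ^ 2 := by rw [← map_pow, ← map_pow, hz, map_ofNat, map_ofNat]
    rcases sq_eq_sq_iff_eq_or_eq_neg.1 h1 with h2 | h2
    · exact h2
    · exact absurd h2 (hcon τ)
  have htr := trace_eq_sum_embeddings (K := ℚ) (L := K) ℂ (x := z)
  have h2 : ∑ φ : K →ₐ[ℚ] ℂ, φ z = (Fintype.card (K →ₐ[ℚ] ℂ) : ℂ) * σ z := by
    have h3 : ∀ φ : K →ₐ[ℚ] ℂ, φ z = σ z := fun φ => hall φ.toRingHom
    simp only [h3]
    rw [Finset.sum_const, Finset.card_univ, nsmul_eq_mul]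
  rw [h2] at htr
  have hcard : (Fintype.card (K →ₐ[ℚ] ℂ) : ℂ) ≠ 0 := by
    have : Nonempty (K →ₐ[ℚ] ℂ) := ⟨RingHom.equivRatAlgHom K ℂ σ⟩
    exact_mod_cast Fintype.card_ne_zero
  set d := Fintype.card (K →ₐ[ℚ] ℂ) with hd
  have h4 : (((Algebra.trace ℚ K z / d) ^ 2 : ℚ) : ℂ) = ((5 : ℚ) : ℂ) := by
    have h5 : σ z = ((Algebra.trace ℚ K z / d : ℚ) : ℂ) := by
      push_cast
      rw [eq_div_iff hcard, mul_comm, ← htr]
      rfl
    rw [Rat.cast_pow, ← h5, ← map_pow, hz, map_ofNat]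
    norm_num
  have h5 : (Algebra.trace ℚ K z / d) ^ 2 = (5 : ℚ) := by exact_mod_cast h4
  have hirr : ¬ IsSquare (5 : ℚ) := by
    rw [show (5 : ℚ) = ((5 : ℕ) : ℚ) by norm_num, Rat.isSquare_natCast_iff]
    rintro ⟨r, hr⟩
    have : r ≤ 2 := by nlinarith
    interval_cases r <;> omega
  exact hirr ⟨_, by rw [← h5, sq]⟩

/-- The partner of an embedding. -/
lemma partner (π : TraceSystem K) (h : π.Icosahedral) (σ : K →+* ℂ) : ∃ τ : K →+* ℂ,
    ∀ p, π.Good p → (∃ n : ℕ, π.u σ p = n ∧ π.u τ p = n) ∨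
      (π.u σ p = (3 + √5) / 2 ∧ π.u τ p = (3 - √5) / 2) ∨
      (π.u σ p = (3 - √5) / 2 ∧ π.u τ p = (3 + √5) / 2) := by
  obtain ⟨z, hz⟩ := h.sqrt_five
  obtain ⟨τ, hτ⟩ := exists_partner hz σ
  refine ⟨τ, fun p hp => ?_⟩
  rcases h.values p hp with ⟨n, hn⟩ | hg
  · exact Or.inl ⟨n, hn σ, hn τ⟩
  right
  have h5 : (√5 : ℝ) ^ 2 = 5 := Real.sq_sqrt (by norm_num)
  -- the element `2 y - 3`
  set w : K := 2 * π.yy p - 3 with hw
  have hemb : ∀ φ : K →+* ℂ, φ w = ((2 * π.u φ p - 3 : ℝ) : ℂ) := by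
    intro φ
    rw [hw, map_sub, map_mul, map_ofNat, map_ofNat, TraceSystem.emb_yy hp φ]
    push_cast
    rfl
  have hw2 : w ^ 2 = z ^ 2 := by
    apply σ.injective
    rw [map_pow, hemb, hz, map_ofNat]
    have : (2 * π.u σ p - 3) ^ 2 = (5 : ℝ) := by
      rcases hg σ with h1 | h1 <;> rw [h1] <;> nlinarith
    exact_mod_cast this
  have hneg : τ w = -σ w := by
    rcases sq_eq_sq_iff_eq_or_eq_neg.1 hw2 with h1 | h1
    · rw [h1, hτ]
    · rw [h1, map_neg, map_neg, hτ]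
  rw [hemb, hemb] at hneg
  have hneg' : 2 * π.u τ p - 3 = -(2 * π.u σ p - 3) := by exact_mod_cast hneg
  rcases hg σ with h1 | h1
  · left
    exact ⟨h1, by rw [h1] at hneg'; linarith⟩
  · right
    exact ⟨h1, by rw [h1] at hneg'; linarith⟩

end partner

namespace HeckeFamily

variable {I : Type} [Fintype I] {V : HeckeFamily I}

variable {F : IntermediateField ℚ ℂ} (hF : ∀ i Q, V.value i Q ∈ F)
variable (hint : ∀ i Q, IsIntegral ℤ (V.value i Q))
variable [FiniteDimensional ℚ F]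
variable (hconj : ∀ (σ : F →+* ℂ) (i : I), ∃ j, ∀ Q, σ ⟨V.value i Q, hF i Q⟩ = V.value j Q)

lemma conj_dihedral {i j : I} {σ : F →+* ℂ} (h : ∀ Q, σ ⟨V.value i Q, hF i Q⟩ = V.value j Q)
    (hd : V.Dihedral j) : (sys hF hint hconj i).Dihedral := by
  obtain ⟨M, hM, χ, hχ, hz⟩ := hd
  refine ⟨M, hM, χ, hχ, fun p hp hdM hχp => ?_⟩
  apply σ.injective
  rw [map_zero]
  have h1 : σ ((sys hF hint hconj i).a p) = V.a j p := σ_aF hF h hp
  rw [h1]
  exact hz p hp hdM hχp

lemma conj_tetrahedral {i j : I} {σ : F →+* ℂ} (h : ∀ Q, σ ⟨V.value i Q, hF i Q⟩ = V.value j Q)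
    (hd : V.Tetrahedral j) : (sys hF hint hconj i).Tetrahedral := by
  obtain ⟨M, hM, χ, hχ, hz⟩ := hd
  refine ⟨M, hM, χ, hχ, fun p hp hdM hχp => ?_⟩
  apply σ.injective
  rw [map_zero]
  have h1 : σ ((sys hF hint hconj i).a p) = V.a j p := σ_aF hF h hp
  have h2 : σ ((sys hF hint hconj i).ω p) = V.ω j p := σ_omF hF h hp
  rw [map_sub, map_pow, h1, h2]
  exact hz p hp hdM hχp

lemma conj_octahedral {i j : I} {σ : F →+* ℂ} (h : ∀ Q, σ ⟨V.value i Q, hF i Q⟩ = V.value j Q)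
    (hd : V.Octahedral j) : (sys hF hint hconj i).Octahedral := by
  obtain ⟨M, hM, χ, hχ, hz⟩ := hd
  refine ⟨M, hM, χ, hχ, fun p hp hdM hχp => ?_⟩
  apply σ.injective
  rw [map_zero]
  have h1 : σ ((sys hF hint hconj i).a p) = V.a j p := σ_aF hF h hp
  have h2 : σ ((sys hF hint hconj i).ω p) = V.ω j p := σ_omF hF h hp
  rw [map_sub, map_mul, map_mul, map_pow, map_ofNat, h1, h2]
  exact hz p hp hdM hχp

omit [FiniteDimensional ℚ F] in
lemma incl_eq (i : I) (Q) : F.val.toRingHom ⟨V.value i Q, hF i Q⟩ = V.value i Q := rfl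

lemma back_dihedral {i : I} (hd : (sys hF hint hconj i).Dihedral) : V.Dihedral i := by
  obtain ⟨M, hM, χ, hχ, hz⟩ := hd
  refine ⟨M, hM, χ, hχ, fun p hp hdM hχp => ?_⟩
  have h1 : F.val.toRingHom ((sys hF hint hconj i).a p) = V.a i p := σ_aF hF (incl_eq hF i) hp
  rw [← h1, hz p hp hdM hχp, map_zero]

lemma back_tetrahedral {i : I} (hd : (sys hF hint hconj i).Tetrahedral) : V.Tetrahedral i := by
  obtain ⟨M, hM, χ, hχ, hz⟩ := hd
  refine ⟨M, hM, χ, hχ, fun p hp hdM hχp => ?_⟩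
  have h1 : F.val.toRingHom ((sys hF hint hconj i).a p) = V.a i p := σ_aF hF (incl_eq hF i) hp
  have h2 : F.val.toRingHom ((sys hF hint hconj i).ω p) = V.ω i p := σ_omF hF (incl_eq hF i) hp
  have h3 := congrArg F.val.toRingHom (hz p hp hdM hχp)
  rw [map_sub, map_pow, h1, h2, map_zero] at h3
  exact h3

lemma back_octahedral {i : I} (hd : (sys hF hint hconj i).Octahedral) : V.Octahedral i := by
  obtain ⟨M, hM, χ, hχ, hz⟩ := hd
  refine ⟨M, hM, χ, hχ, fun p hp hdM hχp => ?_⟩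
  have h1 : F.val.toRingHom ((sys hF hint hconj i).a p) = V.a i p := σ_aF hF (incl_eq hF i) hp
  have h2 : F.val.toRingHom ((sys hF hint hconj i).ω p) = V.ω i p := σ_omF hF (incl_eq hF i) hp
  have h3 := congrArg F.val.toRingHom (hz p hp hdM hχp)
  rw [map_sub, map_mul, map_mul, map_pow, map_ofNat, h1, h2, map_zero] at h3
  exact h3

lemma sys_orthogonal (i : I) (hK : V.KimShahidi) (h1 : ¬ (sys hF hint hconj i).Dihedral)
    (h2 : ¬ (sys hF hint hconj i).Tetrahedral) (h3 : ¬ (sys hF hint hconj i).Octahedral) :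
    (sys hF hint hconj i).Orthogonal := by
  have hns : ∀ {j : I} {σ : F →+* ℂ}, (∀ Q, σ ⟨V.value i Q, hF i Q⟩ = V.value j Q) →
      ¬ V.Solvable j := by
    rintro j σ h (hd | ht | ho)
    · exact h1 (conj_dihedral hF hint hconj h hd)
    · exact h2 (conj_tetrahedral hF hint hconj h ht)
    · exact h3 (conj_octahedral hF hint hconj h ho)
  refine ⟨?_, ?_, ?_, ?_, ?_, ?_, ?_⟩
  · intro M hM σ
    obtain ⟨j, hj⟩ := hconj σ i
    exact mean_of (V := V) ((hK j j (hns hj) (hns hj)).mean_ad M hM) fun p hp =>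
      onClass_congr (sys_ad hF hint hconj hj hp).symm
  · intro M hM σ
    obtain ⟨j, hj⟩ := hconj σ i
    exact mean_of (V := V) ((hK j j (hns hj) (hns hj)).mean_four M hM) fun p hp =>
      onClass_congr (sys_four hF hint hconj hj hp).symm
  · intro M hM σ τ
    obtain ⟨j, hj⟩ := hconj σ i
    obtain ⟨k, hk⟩ := hconj τ i
    refine mean_of (V := V) ((hK j k (hns hj) (hns hk)).mean_ad_four M hM) fun p hp =>
      onClass_congr ?_
    rw [Pi.mul_apply, Pi.mul_apply, sys_ad hF hint hconj hj hp, sys_four hF hint hconj hk hp]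
  · intro σ τ hs
    obtain ⟨j, hj⟩ := hconj σ i
    obtain ⟨k, hk⟩ := hconj τ i
    refine mean_of (V := V) ((hK j k (hns hj) (hns hk)).ad_ad_same fun p hp => ?_) fun p hp => ?_
    · rw [← sys_ad hF hint hconj hj hp, ← sys_ad hF hint hconj hk hp]
      exact hs p hp
    · rw [Pi.mul_apply, Pi.mul_apply, sys_ad hF hint hconj hj hp, sys_ad hF hint hconj hk hp]
  · intro σ τ hs
    obtain ⟨j, hj⟩ := hconj σ i
    obtain ⟨k, hk⟩ := hconj τ i
    refine mean_of (V := V) ((hK j k (hns hj) (hns hk)).ad_ad_ne fun hs' => hs fun p hp => ?_)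
      fun p hp => ?_
    · rw [sys_ad hF hint hconj hj hp, sys_ad hF hint hconj hk hp]
      exact hs' p hp
    · rw [Pi.mul_apply, Pi.mul_apply, sys_ad hF hint hconj hj hp, sys_ad hF hint hconj hk hp]
  · intro σ τ hs
    obtain ⟨j, hj⟩ := hconj σ i
    obtain ⟨k, hk⟩ := hconj τ i
    refine mean_of (V := V) ((hK j k (hns hj) (hns hk)).four_four_same fun p hp => ?_) fun p hp => ?_
    · rw [← sys_four hF hint hconj hj hp, ← sys_four hF hint hconj hk hp]
      exact hs p hp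
    · rw [Pi.mul_apply, Pi.mul_apply, sys_four hF hint hconj hj hp, sys_four hF hint hconj hk hp]
  · intro σ τ hs
    obtain ⟨j, hj⟩ := hconj σ i
    obtain ⟨k, hk⟩ := hconj τ i
    refine mean_of (V := V) ((hK j k (hns hj) (hns hk)).four_four_ne fun hs' => hs fun p hp => ?_)
      fun p hp => ?_
    · rw [sys_four hF hint hconj hj hp, sys_four hF hint hconj hk hp]
      exact hs' p hp
    · rw [Pi.mul_apply, Pi.mul_apply, sys_four hF hint hconj hj hp, sys_four hF hint hconj hk hp]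

lemma sys_multiplicityOne (i : I) (hM : V.MultiplicityOne) :
    (sys hF hint hconj i).MultiplicityOne := by
  intro σ τ hs
  obtain ⟨j, hj⟩ := hconj σ i
  obtain ⟨k, hk⟩ := hconj τ i
  obtain ⟨M, hM0, χ, hχ⟩ := hM j k fun p hp => by
    rw [← sys_ad hF hint hconj hj hp, ← sys_ad hF hint hconj hk hp]
    exact hs p hp
  refine ⟨M, hM0, χ, fun p hp hd => ?_⟩
  have h1 : σ ((sys hF hint hconj i).a p) = V.a j p := σ_aF hF hj hp
  have h2 : τ ((sys hF hint hconj i).a p) = V.a k p := σ_aF hF hk hp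
  rw [h1, h2]
  exact hχ p hp hd

lemma density_of {P Q : ℕ → Prop} {c : ℝ} (h : HasDensity P c) (hPQ : ∀ p, V.Good p → (P p ↔ Q p)) :
    HasDensity Q c := by
  classical
  unfold H74C.HasDensity at h ⊢
  refine mean_of (V := V) h fun p hp => ?_
  by_cases hP : P p
  · rw [if_pos hP, if_pos ((hPQ p hp).1 hP)]
  · rw [if_neg hP, if_neg fun hQ => hP ((hPQ p hp).2 hQ)]

lemma back_icosahedral {i : I} (h : (sys hF hint hconj i).Icosahedral) : V.Icosahedral i := by
  have hu : ∀ {p : ℕ}, V.Good p → (sys hF hint hconj i).u F.val.toRingHom p = V.u i p := fun hp =>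
    sys_u hF hint hconj (incl_eq hF i) hp
  refine ⟨?_, ?_, ?_, ?_, ?_, ?_⟩
  · obtain ⟨τ, hτ⟩ := partner _ h F.val.toRingHom
    obtain ⟨j, hj⟩ := hconj τ i
    refine ⟨j, fun p hp => ?_⟩
    have h1 := hτ p hp
    rw [hu hp, sys_u hF hint hconj hj hp] at h1
    exact h1
  · exact density_of (V := V) (h.zero F.val.toRingHom) fun p hp => by rw [hu hp]
  · exact density_of (V := V) (h.one F.val.toRingHom) fun p hp => by rw [hu hp]
  · exact density_of (V := V) (h.four' F.val.toRingHom) fun p hp => by rw [hu hp]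
  · exact density_of (V := V) (h.golden F.val.toRingHom) fun p hp => by rw [hu hp]
  · exact density_of (V := V) (h.golden' F.val.toRingHom) fun p hp => by rw [hu hp]

/-- The theorem. -/
theorem main (V : HeckeFamily I) (hT : V.RationalTraces) (hK : V.KimShahidi)
    (hM : V.MultiplicityOne) (i : I) :
    V.Dihedral i ∨ V.Tetrahedral i ∨ V.Octahedral i ∨ V.Icosahedral i := by
  obtain ⟨D, hD, h⟩ := hT
  obtain ⟨hint, F, hfin, hF⟩ := exists_field V.value value_injective V.mult V.mult_pos D hD h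
  have hconj := exists_conj V.value value_injective V.mult V.mult_pos D hD h F hF
  by_cases h1 : (sys hF hint hconj i).Dihedral
  · exact Or.inl (back_dihedral hF hint hconj h1)
  by_cases h2 : (sys hF hint hconj i).Tetrahedral
  · exact Or.inr (Or.inl (back_tetrahedral hF hint hconj h2))
  by_cases h3 : (sys hF hint hconj i).Octahedral
  · exact Or.inr (Or.inr (Or.inl (back_octahedral hF hint hconj h3)))
  exact Or.inr (Or.inr (Or.inr (back_icosahedral hF hint hconj
    (TraceSystem.main _ (sys_orthogonal hF hint hconj i hK h1 h2 h3)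
      (sys_multiplicityOne hF hint hconj i hM)))))

end HeckeFamily

end Pool.Agent.H74G
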